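import Pool.Agent.J6H54.CG.Stm

/-!
# CG-30: functions of slow growth are not algebraic
-/

set_option autoImplicit false

namespace Pool.Agent.J6H75.CG30

open Pool.Agent.J6H54.CG
open Filter Topology Finset

/-- a common power of `X - ρ` is split off -/
theorem factor (ρ : ℝ) (d : ℕ) : ∀ (n : ℕ) (p : ℕ → Polynomial ℝ),
    (∃ i, i ≤ d ∧ p i ≠ 0 ∧ (p i).natDegree ≤ n) →
    ∃ (e : ℕ) (q : ℕ → Polynomial ℝ),
      (∀ i, i ≤ d → p i = (Polynomial.X - Polynomial.C ρ) ^ e * q i) ∧
      ∃ i, i ≤ d ∧ (q i).eval ρ ≠ 0 := by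
  intro n
  induction n with
  | zero =>
    rintro p ⟨i, hi, hne, hdeg⟩
    refine ⟨0, p, fun j _ => by rw [pow_zero, one_mul], i, hi, ?_⟩
    have h1 := Polynomial.eq_C_of_natDegree_le_zero hdeg
    intro h
    apply hne
    rw [h1, Polynomial.eval_C] at h
    rw [h1, h, Polynomial.C_0]
  | succ n ih =>
    rintro p ⟨i, hi, hne, hdeg⟩
    by_cases h : ∀ j, j ≤ d → (p j).eval ρ = 0
    · have h1 : ∀ j, ∃ q : Polynomial ℝ, j ≤ d → p j = (Polynomial.X - Polynomial.C ρ) * q := by
        intro j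
        by_cases hj : j ≤ d
        · obtain ⟨q, hq⟩ := Polynomial.dvd_iff_isRoot.2 (h j hj)
          exact ⟨q, fun _ => hq⟩
        · exact ⟨0, fun h => absurd h hj⟩
      choose q hq using h1
      have hqi : q i ≠ 0 := by
        intro h0
        apply hne
        rw [hq i hi, h0, mul_zero]
      have hdeg2 : (q i).natDegree ≤ n := by
        rw [hq i hi, Polynomial.natDegree_mul (Polynomial.X_sub_C_ne_zero ρ) hqi,
          Polynomial.natDegree_X_sub_C] at hdeg
        omega
      obtain ⟨e, q', h2, h3⟩ := ih q ⟨i, hi, hqi, hdeg2⟩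
      refine ⟨e + 1, q', fun j hj => ?_, h3⟩
      rw [hq j hj, h2 j hj, pow_succ']
      ring
    · push Not at h
      obtain ⟨j, hj, hj2⟩ := h
      exact ⟨0, p, fun j _ => by rw [pow_zero, one_mul], j, hj, hj2⟩

theorem m30 : S_crit := by
  intro f ρ hf hslow P hP hev
  obtain ⟨i₁, hi₁⟩ : ∃ i, P.coeff i ≠ 0 := by
    by_contra hcon
    push Not at hcon
    exact hP (Polynomial.ext (by simpa using hcon))
  have hi₁d : i₁ ≤ P.natDegree := Polynomial.le_natDegree_of_ne_zero hi₁
  set p : ℕ → Polynomial ℝ := fun i => (P.coeff i).map (algebraMap ℚ ℝ) with hp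
  have hpi : p i₁ ≠ 0 := by
    intro h0
    exact hi₁ ((Polynomial.map_eq_zero (algebraMap ℚ ℝ)).1 h0)
  obtain ⟨e, q, hq, hex⟩ := factor ρ P.natDegree (p i₁).natDegree p ⟨i₁, hi₁d, hpi, le_rfl⟩
  -- the largest index with a nonzero value at ρ
  classical
  obtain ⟨i₀, ⟨hi₀d, hi₀⟩, hmax⟩ : ∃ i₀, (i₀ ≤ P.natDegree ∧ (q i₀).eval ρ ≠ 0) ∧
      ∀ i, i ≤ P.natDegree → i₀ < i → (q i).eval ρ = 0 := by
    have hne : ((range (P.natDegree + 1)).filter fun i => (q i).eval ρ ≠ 0).Nonempty := by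
      obtain ⟨i, hi, hi2⟩ := hex
      exact ⟨i, Finset.mem_filter.2 ⟨Finset.mem_range.2 (by omega), hi2⟩⟩
    refine ⟨((range (P.natDegree + 1)).filter fun i => (q i).eval ρ ≠ 0).max' hne,
      ⟨?_, (Finset.mem_filter.1 (Finset.max'_mem _ hne)).2⟩, ?_⟩
    · have h1 := Finset.mem_filter.1 (Finset.max'_mem _ hne)
      have h2 := Finset.mem_range.1 h1.1
      omega
    · intro i hi hlt
      by_contra hcon
      have h1 := Finset.le_max' ((range (P.natDegree + 1)).filter fun i => (q i).eval ρ ≠ 0) i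
        (Finset.mem_filter.2 ⟨Finset.mem_range.2 (by omega), hcon⟩)
      omega
  have hcont : ∀ r : Polynomial ℝ, Tendsto (fun x => r.eval x) (𝓝[<] ρ) (𝓝 (r.eval ρ)) :=
    fun r => (r.continuous.tendsto ρ).mono_left nhdsWithin_le_nhds
  have hpos : ∀ᶠ x in 𝓝[<] ρ, 0 < f x := hf.eventually_gt_atTop 0
  have hlt : ∀ᶠ x in 𝓝[<] ρ, x < ρ := self_mem_nhdsWithin
  have hterm : ∀ i ∈ range (P.natDegree + 1),
      Tendsto (fun x => (q i).eval x * f x ^ i / f x ^ i₀) (𝓝[<] ρ)
        (𝓝 (if i = i₀ then (q i₀).eval ρ else 0)) := by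
    intro i hi
    have hid : i ≤ P.natDegree := by
      have := Finset.mem_range.1 hi
      omega
    rcases lt_trichotomy i i₀ with h | h | h
    · rw [if_neg h.ne]
      have h1 : Tendsto (fun x => (f x ^ (i₀ - i))⁻¹) (𝓝[<] ρ) (𝓝 0) :=
        ((tendsto_pow_atTop (by omega)).comp hf).inv_tendsto_atTop
      have h2 := (hcont (q i)).mul h1
      rw [mul_zero] at h2
      refine h2.congr' ?_
      filter_upwards [hpos] with x hx
      have h3 : f x ^ i₀ = f x ^ i * f x ^ (i₀ - i) := by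
        rw [← pow_add]
        congr 1
        omega
      rw [h3]
      have h4 : f x ^ i ≠ 0 := pow_ne_zero _ hx.ne'
      have h5 : f x ^ (i₀ - i) ≠ 0 := pow_ne_zero _ hx.ne'
      field_simp
    · rw [if_pos h, h]
      refine (hcont (q i₀)).congr' ?_
      filter_upwards [hpos] with x hx
      have h4 : f x ^ i₀ ≠ 0 := pow_ne_zero _ hx.ne'
      field_simp
    · rw [if_neg h.ne']
      obtain ⟨r, hr⟩ := Polynomial.dvd_iff_isRoot.2 (hmax i hid h)
      have h1 := ((hcont r).mul (hslow (i - i₀))).neg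
      rw [mul_zero, neg_zero] at h1
      refine h1.congr' ?_
      filter_upwards [hpos] with x hx
      have h3 : f x ^ i = f x ^ i₀ * f x ^ (i - i₀) := by
        rw [← pow_add]
        congr 1
        omega
      rw [hr, h3, Polynomial.eval_mul, Polynomial.eval_sub, Polynomial.eval_X, Polynomial.eval_C]
      have h4 : f x ^ i₀ ≠ 0 := pow_ne_zero _ hx.ne'
      field_simp
      ring
  have hsum := tendsto_finsetSum _ hterm
  rw [Finset.sum_ite_eq' (range (P.natDegree + 1)) i₀ (fun _ => (q i₀).eval ρ),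
    if_pos (Finset.mem_range.2 (by omega))] at hsum
  have hzero : ∀ᶠ x in 𝓝[<] ρ,
      ∑ i ∈ range (P.natDegree + 1), (q i).eval x * f x ^ i / f x ^ i₀ = 0 := by
    filter_upwards [hev, hlt] with x hx hxlt
    have h1 : ∑ i ∈ range (P.natDegree + 1), (Polynomial.aeval x (P.coeff i) : ℝ) * f x ^ i =
        (x - ρ) ^ e * ∑ i ∈ range (P.natDegree + 1), (q i).eval x * f x ^ i := by
      rw [Finset.mul_sum]
      refine Finset.sum_congr rfl fun i hi => ?_
      have hid : i ≤ P.natDegree := by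
        have := Finset.mem_range.1 hi
        omega
      have h2 : (Polynomial.aeval x (P.coeff i) : ℝ) = (p i).eval x := by
        rw [hp, Polynomial.eval_map_algebraMap]
      rw [h2, hq i hid, Polynomial.eval_mul, Polynomial.eval_pow, Polynomial.eval_sub,
        Polynomial.eval_X, Polynomial.eval_C]
      ring
    rw [h1] at hx
    have h3 : (x - ρ) ^ e ≠ 0 := pow_ne_zero _ (sub_ne_zero.2 hxlt.ne)
    rw [← Finset.sum_div, (mul_eq_zero.1 hx).resolve_left h3, zero_div]
  have hlim : Tendsto (fun x => ∑ i ∈ range (P.natDegree + 1), (q i).eval x * f x ^ i / f x ^ i₀)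
      (𝓝[<] ρ) (𝓝 0) := by
    refine Tendsto.congr' ?_ tendsto_const_nhds
    filter_upwards [hzero] with x hx
    exact hx.symm
  exact hi₀ (tendsto_nhds_unique hsum hlim)

end Pool.Agent.J6H75.CG30
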